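import Mathlib

set_option autoImplicit false

namespace Pool.Agent.H648Z.SP

open Filter Finset

open Classical in
/-- elements of `S` in `[1, N]` -/
noncomputable def cut (S : Set ℕ) (N : ℕ) : Finset ℕ := (Icc 1 N).filter (· ∈ S)

lemma mem_cut {S : Set ℕ} {N x : ℕ} : x ∈ cut S N ↔ (1 ≤ x ∧ x ≤ N) ∧ x ∈ S := by
  simp [cut]

lemma ncard_cut (S : Set ℕ) (N : ℕ) : (S ∩ Set.Icc 1 N).ncard = (cut S N).card := by
  rw [← Set.ncard_coe_finset]
  congr 1
  ext x
  simp [mem_cut, and_comm]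

open Classical in
/-- elements of `E ∩ [1, N]` with a predecessor in `E` at a distance in `[t, t + L)` -/
noncomputable def bad (E : Set ℕ) (t L N : ℕ) : Finset ℕ :=
  (cut E N).filter fun x => ∃ s, t ≤ s ∧ s < t + L ∧ s ≤ x ∧ x - s ∈ E

/-- Banach density zero -/
def Sparse (E : Set ℕ) : Prop :=
  ∀ ε : ℝ, 0 < ε → ∃ M0 : ℕ, ∀ a M : ℕ, M0 ≤ M → ((E ∩ Set.Ico a (a + M)).ncard : ℝ) ≤ ε * M

lemma count_blocks (E : Set ℕ) (P K L x : ℕ) (hL : 0 < L) [DecidablePred fun b : ℕ =>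
    ∃ s, P + b * L ≤ s ∧ s < P + b * L + L ∧ s ≤ x ∧ x - s ∈ E] :
    ((range K).filter fun b => ∃ s, P + b * L ≤ s ∧ s < P + b * L + L ∧ s ≤ x ∧ x - s ∈ E).card ≤
      (E ∩ Set.Ico (x + 1 - P - K * L) (x + 1 - P - K * L + K * L)).ncard := by
  classical
  have hfin : (E ∩ Set.Ico (x + 1 - P - K * L) (x + 1 - P - K * L + K * L)).Finite :=
    (Set.finite_Ico _ _).subset Set.inter_subset_right
  rw [Set.ncard_eq_toFinset_card _ hfin]
  refine card_le_card_of_surjOn (fun y => (x - y - P) / L) ?_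
  intro b hb
  simp only [coe_filter, mem_range, Set.mem_ofPred_eq] at hb
  obtain ⟨hbK, s, h1, h2, h3, h4⟩ := hb
  have h5 : (b + 1) * L ≤ K * L := Nat.mul_le_mul_right L hbK
  have h6 : (b + 1) * L = b * L + L := by ring
  refine ⟨x - s, ?_, ?_⟩
  · simp only [Set.Finite.coe_toFinset, Set.mem_inter_iff, Set.mem_Ico]
    refine ⟨h4, by omega, by omega⟩
  · have h7 : x - (x - s) - P = s - P := by omega
    simp only [h7]
    rw [Nat.div_eq_iff hL]
    omega

lemma step {E : Set ℕ} (hE : Sparse E) (P L : ℕ) (hL : 0 < L) {η : ℝ} (hη : 0 < η) :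
    ∃ t, P ≤ t ∧ ∀ᶠ N in (hyperfilter ℕ : Filter ℕ),
      ((bad E t L N).card : ℝ) ≤ η * (cut E N).card := by
  classical
  have hLr : (0 : ℝ) < L := by exact_mod_cast hL
  obtain ⟨M0, hM⟩ := hE (η / L) (by positivity)
  set K := M0 + 1 with hK
  have hKL : M0 ≤ K * L := le_trans (by omega) (Nat.le_mul_of_pos_right K hL)
  have key : ∀ N, ∃ b ∈ (range K : Set ℕ),
      ((bad E (P + b * L) L N).card : ℝ) ≤ η * (cut E N).card := by
    intro N
    have h1 : ∑ b ∈ range K, ((bad E (P + b * L) L N).card : ℝ) ≤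
        ∑ _b ∈ range K, η * (cut E N).card := by
      have h2 : ∑ b ∈ range K, (bad E (P + b * L) L N).card =
          ∑ x ∈ cut E N, ((range K).filter fun b =>
            ∃ s, P + b * L ≤ s ∧ s < P + b * L + L ∧ s ≤ x ∧ x - s ∈ E).card := by
        unfold bad
        simp only [card_filter]
        rw [sum_comm]
      rw [← Nat.cast_sum, h2, Nat.cast_sum]
      calc _ ≤ ∑ _x ∈ cut E N, η / L * ((K * L : ℕ) : ℝ) := by
            refine sum_le_sum fun x _ => le_trans ?_ (hM (x + 1 - P - K * L) (K * L) hKL)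
            exact_mod_cast count_blocks E P K L x hL
        _ = _ := by
            simp only [sum_const, card_range, nsmul_eq_mul]
            push_cast
            field_simp
    obtain ⟨b, hb, h⟩ := exists_le_of_sum_le (nonempty_range_iff.2 (by omega)) h1
    exact ⟨b, by simpa using hb, h⟩
  obtain ⟨b, -, hb⟩ := (Ultrafilter.eventually_exists_mem_iff (f := hyperfilter ℕ)
    (finite_toSet (range K))).1 (Eventually.of_forall key)
  exact ⟨P + b * L, Nat.le_add_right _ _, hb⟩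

theorem core {E : Set ℕ} (hE : Sparse E) {η : ℝ} (hη : 0 < η) :
    ∃ (A : Set ℕ) (t : ℕ → ℕ), A ⊆ E ∧ (∀ n, 1 ≤ t n) ∧
      (∀ n, ∀ s, t n ≤ s → s ≤ t n + n → ∀ a ∈ A, ∀ b ∈ A, a ≠ b + s) ∧
      ∃ᶠ N in atTop, (1 - η) * (cut E N).card ≤ (cut A N).card := by
  classical
  obtain ⟨f, hP, hr⟩ := exists_seq_of_forall_finset_exists
    (fun y : ℕ × ℕ × ℕ => y.2.1 < y.2.2 ∧ ∀ᶠ N in (hyperfilter ℕ : Filter ℕ),
      ((bad E y.2.2 (y.1 + 1) N).card : ℝ) ≤ η / 2 ^ (y.1 + 1) * (cut E N).card)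
    (fun x y => x.1 < y.1 ∧ x.2.1 < y.2.1 ∧
      ((bad E x.2.2 (x.1 + 1) y.2.1).card : ℝ) ≤ η / 2 ^ (x.1 + 1) * (cut E y.2.1).card)
    (by
      intro s hs
      have h1 : ∀ᶠ N in (hyperfilter ℕ : Filter ℕ), ∀ x ∈ s, x.2.1 < N ∧
          ((bad E x.2.2 (x.1 + 1) N).card : ℝ) ≤ η / 2 ^ (x.1 + 1) * (cut E N).card := by
        refine (eventually_all_finset s).2 fun x hx => Eventually.and ?_ (hs x hx).2
        exact Nat.hyperfilter_le_atTop (eventually_gt_atTop _)
      obtain ⟨N, hN⟩ := h1.exists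
      obtain ⟨t, ht, h2⟩ := step hE (N + 1) (s.sup (·.1) + 1 + 1) (by omega)
        (η := η / 2 ^ (s.sup (·.1) + 1 + 1)) (by positivity)
      refine ⟨(s.sup (·.1) + 1, N, t), ⟨ht, h2⟩, fun x hx => ⟨?_, (hN x hx).1, (hN x hx).2⟩⟩
      exact Nat.lt_succ_of_le (le_sup (f := (·.1)) hx))
  have hj : StrictMono fun n => (f n).1 := fun m n h => (hr m n h).1
  have hN : StrictMono fun n => (f n).2.1 := fun m n h => (hr m n h).2.1
  refine ⟨{x | x ∈ E ∧ ∀ m s, (f m).2.2 ≤ s → s < (f m).2.2 + ((f m).1 + 1) → s ≤ x → x - s ∉ E},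
    fun n => (f n).2.2, fun x hx => hx.1, fun n => ?_, ?_, ?_⟩
  · have := (hP n).1
    simp only
    omega
  · intro n s h1 h2 a ha b hb hab
    have h3 : n ≤ (f n).1 := hj.id_le n
    refine ha.2 n s h1 (by simp only at h2; omega) (by omega) ?_
    rw [hab, Nat.add_sub_cancel]
    exact hb.1
  · refine (hN.tendsto_atTop).frequently (Frequently.of_forall fun n => ?_)
    set N := (f n).2.1 with hNdef
    set A := {x | x ∈ E ∧ ∀ m s, (f m).2.2 ≤ s → s < (f m).2.2 + ((f m).1 + 1) → s ≤ x → x - s ∉ E}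
    have hsub : cut E N ⊆ cut A N ∪ (range n).biUnion fun m => bad E (f m).2.2 ((f m).1 + 1) N := by
      intro x hx
      by_cases hA : x ∈ A
      · exact mem_union_left _ (mem_cut.2 ⟨(mem_cut.1 hx).1, hA⟩)
      · refine mem_union_right _ ?_
        have hxE := (mem_cut.1 hx).2
        simp only [A, Set.mem_ofPred_eq, hxE, true_and, not_forall, not_not] at hA
        obtain ⟨m, s, h1, h2, h3, h4⟩ := hA
        refine mem_biUnion.2 ⟨m, mem_range.2 ?_, mem_filter.2 ⟨hx, s, h1, h2, h3, h4⟩⟩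
        by_contra hmn
        have h5 : (f n).2.1 ≤ (f m).2.1 := hN.monotone (not_lt.1 hmn)
        have h6 := (hP m).1
        have h7 := (mem_cut.1 hx).1.2
        omega
    have h1 : ((cut E N).card : ℝ) ≤ (cut A N).card +
        ∑ m ∈ range n, ((bad E (f m).2.2 ((f m).1 + 1) N).card : ℝ) := by
      have := (card_le_card hsub).trans ((card_union_le _ _).trans
        (Nat.add_le_add_left card_biUnion_le _))
      exact_mod_cast this
    have h2 : ∑ m ∈ range n, ((bad E (f m).2.2 ((f m).1 + 1) N).card : ℝ) ≤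
        ∑ m ∈ range n, η / 2 / 2 ^ m * (cut E N).card := by
      refine sum_le_sum fun m hm => le_trans (hr m n (mem_range.1 hm)).2.2 ?_
      have h3 : m ≤ (f m).1 := hj.id_le m
      have h4 : (2 : ℝ) ^ (m + 1) ≤ 2 ^ ((f m).1 + 1) := pow_le_pow_right₀ (by norm_num) (by omega)
      have h5 : η / 2 ^ ((f m).1 + 1) ≤ η / 2 / 2 ^ m := by
        rw [div_div, ← pow_succ']
        exact div_le_div_of_nonneg_left hη.le (by positivity) h4
      exact mul_le_mul_of_nonneg_right h5 (by positivity)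
    have h3 : ∑ m ∈ range n, η / 2 / 2 ^ m ≤ η :=
      sum_le_hasSum _ (fun _ _ => by positivity) (hasSum_geometric_two' η)
    rw [← sum_mul] at h2
    have h4 : (0 : ℝ) ≤ (cut E N).card := by positivity
    nlinarith [mul_le_mul_of_nonneg_right h3 h4]

lemma cut_pos {E : Set ℕ} (hE : E.Infinite) : ∀ᶠ N in atTop, 0 < (cut E N).card := by
  obtain ⟨x, hx, h1⟩ := hE.exists_gt 0
  filter_upwards [eventually_ge_atTop x] with N hN
  exact card_pos.2 ⟨x, mem_cut.2 ⟨⟨h1, hN⟩, hx⟩⟩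

lemma le_limsup_ratio {E A : Set ℕ} (hE : E.Infinite) (hA : A ⊆ E) {c : ℝ}
    (h : ∃ᶠ N in atTop, c * (cut E N).card ≤ (cut A N).card) :
    c ≤ limsup (fun N => ((cut A N).card : ℝ) / (cut E N).card) atTop := by
  refine le_limsup_of_frequently_le ?_ ?_
  · refine (h.and_eventually (cut_pos hE)).mono fun N hN => ?_
    rw [le_div_iff₀ (by exact_mod_cast hN.2)]
    exact hN.1
  · refine isBoundedUnder_of ⟨1, fun N => ?_⟩
    refine div_le_one_of_le₀ ?_ (by positivity)
    exact_mod_cast card_le_card fun x hx => mem_cut.2 ⟨(mem_cut.1 hx).1, hA (mem_cut.1 hx).2⟩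

theorem thick_meets {A R : Set ℕ} (hR : ∀ n, ∃ t, 1 ≤ t ∧ ∀ s, t ≤ s → s ≤ t + n → s ∈ R)
    (hA : 0 < limsup (fun N => ((cut A N).card : ℝ) / N) atTop) :
    ∃ a ∈ A, ∃ b ∈ A, ∃ s ∈ R, a = b + s := by
  classical
  by_contra hc
  simp only [not_exists, not_and] at hc
  obtain ⟨h, -, hh⟩ := exists_seq_of_forall_finset_exists (fun _ : ℕ => True)
    (fun x y => x < y ∧ y - x ∈ R) (by
      intro s _
      obtain ⟨t, ht, h1⟩ := hR (s.sup id)
      refine ⟨t + s.sup id, trivial, fun x hx => ?_⟩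
      have : x ≤ s.sup id := le_sup (f := id) hx
      exact ⟨by omega, h1 _ (by omega) (by omega)⟩)
  obtain ⟨δ, hδ0, hδ⟩ := exists_between hA
  have hfr : ∃ᶠ N in atTop, δ < ((cut A N).card : ℝ) / N := by
    refine frequently_lt_of_lt_limsup ?_ hδ
    exact isCoboundedUnder_le_of_le atTop (x := 0) fun N => by positivity
  obtain ⟨r, hr⟩ := exists_nat_gt (2 / δ)
  have hmono : StrictMono h := fun m n hmn => (hh m n hmn).1
  obtain ⟨N, hN1, hN2⟩ := (hfr.and_eventually (eventually_gt_atTop (h r))).exists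
  have hNpos : (0 : ℝ) < N := by exact_mod_cast (by omega : 0 < N)
  have hdisj : ∀ i ∈ range r, ∀ j ∈ range r, i ≠ j →
      Disjoint ((cut A N).image (· + h i)) ((cut A N).image (· + h j)) := by
    have key : ∀ i j, i < j →
        Disjoint ((cut A N).image (· + h i)) ((cut A N).image (· + h j)) := by
      intro i j hij
      rw [disjoint_left]
      intro x hx hx'
      obtain ⟨a, ha, rfl⟩ := mem_image.1 hx
      obtain ⟨b, hb, e⟩ := mem_image.1 hx'
      have h1 := hh i j hij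
      exact hc a (mem_cut.1 ha).2 b (mem_cut.1 hb).2 _ h1.2 (by omega)
    intro i _ j _ hij
    rcases lt_or_gt_of_ne hij with h1 | h1
    · exact key i j h1
    · exact (key j i h1).symm
  have h1 := card_biUnion hdisj
  have h2 : (range r).biUnion (fun i => (cut A N).image (· + h i)) ⊆ Icc 1 (2 * N) := by
    intro x hx
    obtain ⟨i, hi, hx⟩ := mem_biUnion.1 hx
    obtain ⟨a, ha, rfl⟩ := mem_image.1 hx
    have := hmono (mem_range.1 hi)
    have := (mem_cut.1 ha).1
    rw [mem_Icc]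
    omega
  have h3 := card_le_card h2
  rw [h1, sum_congr rfl (g := fun _ => (cut A N).card)
    (fun i _ => card_image_of_injective _ (add_left_injective (h i)))] at h3
  simp only [sum_const, card_range, smul_eq_mul, Nat.card_Icc, add_tsub_cancel_right] at h3
  have h4 : (r : ℝ) * (cut A N).card ≤ 2 * N := by exact_mod_cast h3
  rw [lt_div_iff₀ hNpos] at hN1
  rw [div_lt_iff₀ hδ0] at hr
  have hr0 : (0 : ℝ) ≤ r := by positivity
  nlinarith [mul_le_mul_of_nonneg_left hN1.le hr0]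

end Pool.Agent.H648Z.SP
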